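import Pool.Agent.H90.RS.Main

/-!
# A negative answer (in ZFC) to question Q1

The class `N(X)` need not be invariant under closed mappings when `X` is a paracompact p-space.

Let `S` and `D` be disjoint stationary subsets of `ω₁`. For `δ ∈ S` let `x δ` be an enumeration of
the ordinals below `δ`, and let `M = {x δ : δ ∈ S}` be the corresponding metrizable subspace of
the product of countably many discrete spaces `ω₁`. The space `X` is the Alexandroff duplicate of
`M`. The space `Y` is a topological sum of copies, one for each function `b : D → S`, of the space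
whose non-isolated points are the elements of `D` and whose isolated points are the pairs `(g, k)`,
where `k` is a natural number and `g` assigns an element of `ω₁` to each function `ω₁ → ω₁`; a
neighbourhood of `β ∈ D` contains all the pairs `(g, k)` with `k` large and with `g l = l β` for
all `l` in some finite set of functions which are eventually regressive on `D`.
The space `Z` is obtained from `Y` by identifying, for each `δ ∈ S`, all the non-isolated points
`(b, β)` with `b β = δ`.
-/

namespace Pool.Agent.Results.MP_8829b8_gt.Q1No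

open Set

/-- A perfect map: a closed continuous surjection with compact fibres. -/
def IsPerfectMap {X M : Type} [TopologicalSpace X] [TopologicalSpace M] (p : X → M) : Prop :=
  Continuous p ∧ IsClosedMap p ∧ Function.Surjective p ∧ ∀ m, IsCompact (p ⁻¹' {m})

/-- A paracompact p-space: a Tychonoff paracompact space which admits a perfect map onto a
metrizable space. -/
def IsParacompactPSpace (X : Type) [TopologicalSpace X] : Prop :=
  T35Space X ∧ ParacompactSpace X ∧
    ∃ (M : Type) (_ : TopologicalSpace M) (p : X → M),
      TopologicalSpace.MetrizableSpace M ∧ IsPerfectMap p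

/-- The order of the countable ordinals. -/
theorem omegaLike : Pool.Agent.H90.RS.OmegaLike (Cardinal.aleph 1).ord.ToType where
  wf := wellFounded_lt
  ctbl := by
    intro a
    exact (Cardinal.countable_iff_lt_aleph_one _).2 (Cardinal.mk_Iio_toType_ord_lt a)
  unctbl := by
    rw [Set.countable_univ_iff, ← Cardinal.mk_le_aleph0_iff, Cardinal.mk_ord_toType]
    simp

/-- Negative answer (in ZFC) to Q1: there are a paracompact p-space `X`, perfectly normal Hausdorff
spaces `Y` and `Z` with `X × Y` normal, and a closed continuous map of `Y` onto `Z`, such that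
`X × Z` is not normal. -/
theorem result : ∃ (X Y Z : Type) (_ : TopologicalSpace X) (_ : TopologicalSpace Y)
    (_ : TopologicalSpace Z),
    IsParacompactPSpace X ∧ T6Space Y ∧ T6Space Z ∧ NormalSpace (X × Y) ∧
    (∃ f : Y → Z, Continuous f ∧ IsClosedMap f ∧ Function.Surjective f) ∧
    ¬ NormalSpace (X × Z) := by
  obtain ⟨S, D, hS, hD, hSD, hSne⟩ := omegaLike.exists_disjoint_stat
  have hx : ∀ δ : (Cardinal.aleph 1).ord.ToType, ∃ x : ℕ → (Cardinal.aleph 1).ord.ToType,
      δ ∈ S → range x = Iio δ := by
    intro δ
    by_cases hδ : δ ∈ S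
    · obtain ⟨x, hx⟩ := (omegaLike.ctbl δ).exists_eq_range (hSne δ hδ)
      exact ⟨x, fun _ => hx.symm⟩
    · exact ⟨fun _ => δ, fun h => absurd h hδ⟩
  choose x hx using hx
  have he := Pool.Agent.H90.RS.ee_injective hx
  have hpc := Pool.Agent.H90.RS.Dup.paracompactSpace he
  have ht2 := Pool.Agent.H90.RS.Dup.t2Space he
  refine ⟨Pool.Agent.H90.RS.Dup (Pool.Agent.H90.RS.ee S x),
    Pool.Agent.H90.RS.FS (Pool.Agent.H90.RS.NY S D),
    Pool.Agent.H90.RS.FS (Pool.Agent.H90.RS.NZ S D), inferInstance, inferInstance, inferInstance,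
    ⟨inferInstance, hpc, Pool.Agent.H90.RS.Base (Pool.Agent.H90.RS.ee S x), inferInstance,
      Pool.Agent.H90.RS.Dup.pr, Pool.Agent.H90.RS.Base.metrizable he,
      Pool.Agent.H90.RS.Dup.continuous_pr, Pool.Agent.H90.RS.Dup.isClosedMap_pr,
      Pool.Agent.H90.RS.Dup.surjective_pr, Pool.Agent.H90.RS.Dup.isCompact_fiber⟩,
    Pool.Agent.H90.RS.t6_Y omegaLike hSne, Pool.Agent.H90.RS.t6_Z omegaLike hSne,
    Pool.Agent.H90.RS.normal_XY omegaLike hSD hSne hx,
    ⟨Pool.Agent.H90.RS.ff S D, Pool.Agent.H90.RS.continuous_ff, Pool.Agent.H90.RS.isClosedMap_ff,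
      Pool.Agent.H90.RS.surjective_ff hD⟩,
    Pool.Agent.H90.RS.not_normal_XZ omegaLike hS hD hx⟩

end Pool.Agent.Results.MP_8829b8_gt.Q1No
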